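import Pool.Agent.H739Z.Rw.Main

set_option autoImplicit false

open Pool.Agent.H739Z.Rw

/-- For every pair `(n, m) ≠ (1, 1)` with `n, m ≥ 1` and every finite alphabet `A`: all languages
`L(w)`, `w ∈ A^*`, generated by the rules `x^n → x^(n+m)` are regular if and only if `A` has at
most one letter. -/
theorem Pool.Agent.Results.MP_fb4a47_lc.AAlphabets.result (A : Type) [Fintype A] (n m : ℕ)
    (hn : 1 ≤ n) (hm : 1 ≤ m) (h : (n, m) ≠ (1, 1)) :
    (∀ w : List A, (Lang n m w).IsRegular) ↔ Fintype.card A ≤ 1 :=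
  (alphabets n m hn hm h).trans Fintype.card_le_one_iff_subsingleton.symm
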