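import Pool.Agent.H739Z.Rw.Main

set_option autoImplicit false

open Pool.Agent.H739Z.Rw

/-- For the rules `x → x^(1+m)` with `m ≥ 2`, the language `L(w)` is regular if and only if all
letters of `w` are equal. -/
theorem Pool.Agent.Results.MP_fb4a47_lc.BCaseNOne.result (A : Type) [Fintype A] (m : ℕ)
    (hm : 2 ≤ m) (w : List A) :
    (Lang 1 m w).IsRegular ↔ ∀ x ∈ w, ∀ y ∈ w, x = y :=
  n1_class m hm w
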